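import Mathlib
import Pool.Agent.S02504

/-!
# The sofic profile of the lamplighter group is polynomial, its growth exponential

The statement is in the words of the problem file: symmetric generating sets, the two conditions
with strict inequalities for pairs of elements of the ball, and the profile as the least number of
points, with value `⊤` if there is none.
-/

set_option autoImplicit false

namespace Pool.Agent.Results.MP_9f8f27_al.LamplighterProfile

open Pool.Agent.S02504

/-- `S` is a symmetric generating set. -/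
def SymGen {G : Type} [Group G] (S : Finset G) : Prop :=
  (∀ s ∈ S, s⁻¹ ∈ S) ∧ Subgroup.closure (S : Set G) = ⊤

/-- The elements of word length at most `n`. -/
def ball {G : Type} [Group G] (S : Finset G) (n : ℕ) : Set G :=
  {g | ∃ l : List G, l.length ≤ n ∧ (∀ x ∈ l, x ∈ S) ∧ l.prod = g}

/-- The growth function. -/
noncomputable def growth {G : Type} [Group G] (S : Finset G) (n : ℕ) : ℕ :=
  (ball S n).ncard

/-- The normalized Hamming distance. -/
noncomputable def dHam {k : ℕ} (σ τ : Equiv.Perm (Fin k)) : ℝ :=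
  (1 / (k : ℝ)) * ((Finset.univ.filter (fun i : Fin k => σ i ≠ τ i)).card : ℝ)

/-- Conditions 1 and 2 of the problem file. -/
def IsApprox {G : Type} [Group G] (S : Finset G) (n k : ℕ) (σ : G → Equiv.Perm (Fin k)) : Prop :=
  (∀ g h : G, g ∈ ball S n → h ∈ ball S n → g * h ∈ ball S n →
    dHam (σ g * σ h) (σ (g * h)) < 1 / (n : ℝ)) ∧
  (∀ g h : G, g ∈ ball S n → h ∈ ball S n → g ≠ h → 1 - 1 / (n : ℝ) < dHam (σ g) (σ h))

/-- The sofic profile. -/
noncomputable def soficProfile {G : Type} [Group G] (S : Finset G) (n : ℕ) : ℕ∞ :=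
  sInf {x : ℕ∞ | ∃ k : ℕ, 0 < k ∧ x = (k : ℕ∞) ∧ ∃ σ : G → Equiv.Perm (Fin k), IsApprox S n k σ}

theorem ball_mono {G : Type} [Group G] (S : Finset G) {m n : ℕ} (h : m ≤ n) :
    ball S m ⊆ ball S n := by
  rintro g ⟨l, hl, hS, rfl⟩
  exact ⟨l, hl.trans h, hS, rfl⟩

theorem ball_mul {G : Type} [Group G] (S : Finset G) {m n : ℕ} {g h : G} (hg : g ∈ ball S m)
    (hh : h ∈ ball S n) : g * h ∈ ball S (m + n) := by
  obtain ⟨l, hl, hS, rfl⟩ := hg
  obtain ⟨l', hl', hS', rfl⟩ := hh
  refine ⟨l ++ l', by rw [List.length_append]; omega, ?_, List.prod_append⟩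
  intro x hx
  rcases List.mem_append.mp hx with h | h
  · exact hS x h
  · exact hS' x h

theorem ball_one {G : Type} [Group G] (S : Finset G) (n : ℕ) : (1 : G) ∈ ball S n :=
  ⟨[], Nat.zero_le _, by simp, rfl⟩

theorem ball_inv {G : Type} [Group G] (S : Finset G) (hS : ∀ s ∈ S, s⁻¹ ∈ S) {n : ℕ} {g : G}
    (hg : g ∈ ball S n) : g⁻¹ ∈ ball S n := by
  obtain ⟨l, hl, hl', rfl⟩ := hg
  refine ⟨(l.map (fun x => x⁻¹)).reverse, by simpa using hl, ?_, (List.prod_inv_reverse l).symm⟩
  intro x hx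
  rw [List.mem_reverse, List.mem_map] at hx
  obtain ⟨y, hy, rfl⟩ := hx
  exact hS y (hl' y hy)

/-- Every element of a group lies in some ball of a symmetric generating set. -/
theorem exists_ball {G : Type} [Group G] (S : Finset G) (hS : SymGen S) (g : G) :
    ∃ n : ℕ, g ∈ ball S n := by
  have hg : g ∈ Subgroup.closure (S : Set G) := by rw [hS.2]; exact Subgroup.mem_top g
  induction hg using Subgroup.closure_induction with
  | mem x hx => exact ⟨1, [x], by simp, by simpa using hx, by simp⟩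
  | one => exact ⟨0, ball_one S 0⟩
  | mul x y _ _ hx hy =>
    obtain ⟨m, hm⟩ := hx
    obtain ⟨n, hn⟩ := hy
    exact ⟨m + n, ball_mul S hm hn⟩
  | inv x _ hx =>
    obtain ⟨m, hm⟩ := hx
    exact ⟨m, ball_inv S hS.1 hm⟩

/-- If the letters of `A` lie in the `S`-ball of radius `R`, then words of length `n` in `A` lie
in the `S`-ball of radius `R n`. -/
theorem ball_scale {G : Type} [Group G] (S A : Finset G) (R : ℕ) (hA : ∀ x ∈ A, x ∈ ball S R)
    (n : ℕ) : ball A n ⊆ ball S (R * n) := by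
  rintro g ⟨l, hl, hlA, rfl⟩
  have key : l.prod ∈ ball S (R * l.length) := by
    clear hl
    induction l with
    | nil => exact ball_one S _
    | cons x l ih =>
      rw [List.prod_cons, List.length_cons, Nat.mul_succ, Nat.add_comm]
      exact ball_mul S (hA x (hlA x List.mem_cons_self))
        (ih (fun y hy => hlA y (List.mem_cons_of_mem _ hy)))
  exact ball_mono S (Nat.mul_le_mul_left R hl) key

/-- A common radius for finitely many elements. -/
theorem exists_radius {G : Type} [Group G] (S A : Finset G) (hS : SymGen S) :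
    ∃ R : ℕ, 0 < R ∧ ∀ x ∈ A, x ∈ ball S R := by
  classical
  choose r hr using fun x : G => exists_ball S hS x
  refine ⟨A.sup r + 1, Nat.succ_pos _, fun x hx => ball_mono S ?_ (hr x)⟩
  exact (Finset.le_sup hx).trans (Nat.le_succ _)

/-- The standard symmetric generating set. -/
noncomputable def std : Finset Lamp := by
  classical
  exact {a, t, a⁻¹, t⁻¹}

theorem std_symGen : SymGen std := by
  classical
  constructor
  · intro s hs
    simp only [std, Finset.mem_insert, Finset.mem_singleton] at hs ⊢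
    rcases hs with rfl | rfl | rfl | rfl
    · simp
    · simp
    · simp
    · simp
  · apply closure_eq
    · simp [std]
    · simp [std]

/-- The two letters of the words used in the growth estimate. -/
noncomputable def two : Finset Lamp := by
  classical
  exact {a, t}

theorem mem_two (x : Lamp) : x ∈ two ↔ x = a ∨ x = t := by
  classical
  simp [two]

theorem mem_std_ball {n : ℕ} {g : Lamp} (h : g ∈ ball std n) :
    ∃ l : List Lamp, l.length ≤ n ∧ (∀ x ∈ l, x ∈ two ∨ x⁻¹ ∈ two) ∧ l.prod = g := by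
  classical
  obtain ⟨l, hl, hS, rfl⟩ := h
  refine ⟨l, hl, ?_, rfl⟩
  intro x hx
  have h1 := hS x hx
  simp only [std, Finset.mem_insert, Finset.mem_singleton] at h1
  rw [mem_two, mem_two]
  rcases h1 with rfl | rfl | rfl | rfl
  · simp
  · simp
  · simp
  · simp

theorem std_ball_finite (n : ℕ) : (ball std n).Finite := by
  have h := ball_finite two n
  refine Set.Finite.subset (s := {g : Lamp | ∃ l : List Lamp, l.length ≤ n ∧
    (∀ x ∈ l, x ∈ two ∨ x⁻¹ ∈ two) ∧ l.prod = g}) (Set.finite_coe_iff.mp h) ?_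
  intro g hg
  exact mem_std_ball hg

theorem any_ball_finite (S : Finset Lamp) (n : ℕ) : (ball S n).Finite := by
  obtain ⟨R, -, hR⟩ := exists_radius std S std_symGen
  exact (std_ball_finite (R * n)).subset (ball_scale std S R hR n)

/-- The growth bound. -/
theorem growth_bound (S : Finset Lamp) (hS : SymGen S) :
    ∃ r : ℕ, 0 < r ∧ ∀ n : ℕ, 2 ^ (n / r) ≤ growth S n := by
  classical
  obtain ⟨R, hR, hball⟩ := exists_radius S two hS
  refine ⟨2 * R, by omega, fun n => ?_⟩
  set m := n / (2 * R) with hm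
  have hmn : R * (2 * m) ≤ n := by
    have := Nat.div_mul_le_self n (2 * R)
    rw [← hm] at this
    calc R * (2 * m) = m * (2 * R) := by ring
      _ ≤ n := this
  let F : List.Vector Bool m → Lamp := fun ε => (word ε.1).prod
  have hF : Function.Injective F := by
    intro ε ε' h
    exact Subtype.ext (word_inj ε.1 ε'.1 (by rw [ε.2, ε'.2]) h)
  have hmem : ∀ ε, F ε ∈ ball S n := by
    intro ε
    refine ball_mono S hmn (ball_scale S two R hball (2 * m) ?_)
    refine ⟨word ε.1, (word_length _).trans (by rw [ε.2]), ?_, rfl⟩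
    intro x hx
    rw [mem_two]
    exact word_mem _ _ hx
  have h1 : (Set.range F).ncard ≤ (ball S n).ncard :=
    Set.ncard_le_ncard (by rintro _ ⟨ε, rfl⟩; exact hmem ε) (any_ball_finite S n)
  have h2 : (Set.range F).ncard = 2 ^ m := by
    rw [← Set.image_univ, Set.ncard_image_of_injective _ hF, Set.ncard_univ,
      Nat.card_eq_fintype_card, card_vector, Fintype.card_bool]
  rw [h2] at h1
  exact h1

/-- The distance of two permutations in the image of a homomorphism. -/
theorem dHam_hom {k : ℕ} (φ : Lamp → Equiv.Perm (Fin k)) (h1 : φ 1 = 1)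
    (h2 : ∀ g h, φ (g * h) = φ g * φ h) (g h : Lamp) :
    dHam (φ g) (φ h) =
      ((Finset.univ.filter (fun i : Fin k => φ (h⁻¹ * g) i ≠ i)).card : ℝ) / (k : ℝ) := by
  have e : (Finset.univ.filter (fun i : Fin k => φ g i ≠ φ h i)) =
      (Finset.univ.filter (fun i : Fin k => φ (h⁻¹ * g) i ≠ i)) := by
    apply Finset.filter_congr
    intro i _
    have h3 : φ h⁻¹ * φ h = 1 := by rw [← h2, inv_mul_cancel, h1]
    have h4 : φ h * φ h⁻¹ = 1 := by rw [← h2, mul_inv_cancel, h1]
    rw [h2, Equiv.Perm.mul_apply]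
    constructor
    · intro h5 h6
      apply h5
      have h7 := congrArg (φ h) h6
      rw [← Equiv.Perm.mul_apply, h4] at h7
      simpa using h7
    · intro h5 h6
      apply h5
      rw [h6, ← Equiv.Perm.mul_apply, h3]
      rfl
  unfold dHam
  rw [e]
  ring

/-- The bound for the profile. -/
theorem profile_bound (S : Finset Lamp) (hS : SymGen S) :
    ∃ c : ℕ, ∀ n : ℕ, 1 ≤ n → soficProfile S n ≤ ((c * n ^ 4 : ℕ) : ℕ∞) := by
  classical
  obtain ⟨R, hR, hball⟩ := exists_radius std S std_symGen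
  refine ⟨36 * (4 * R) ^ 4 + 2, fun n hn => ?_⟩
  obtain ⟨d, hd, hdle, φ, h1, h2, h3⟩ := approx two (fun x hx => (mem_two x).mp hx) (4 * R * n)
  have hn4 : 1 ≤ n ^ 4 := Nat.one_le_pow _ _ hn
  have hdn : d ≤ (36 * (4 * R) ^ 4 + 2) * n ^ 4 := by
    refine hdle.trans ?_
    have : 36 * (4 * R * n) ^ 4 = 36 * (4 * R) ^ 4 * n ^ 4 := by ring
    rw [this, Nat.add_mul]
    omega
  refine le_trans (sInf_le ⟨d, hd, rfl, φ, ?_, ?_⟩) (by exact_mod_cast hdn)
  · intro g h _ _ _
    rw [h2]
    have hnpos : (0 : ℝ) < n := by exact_mod_cast hn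
    have : dHam (φ g * φ h) (φ g * φ h) = 0 := by simp [dHam]
    rw [this]
    positivity
  · intro g h hg hh hne
    rw [dHam_hom φ h1 h2]
    have hmem : h⁻¹ * g ∈ ball std (4 * R * n) := by
      have e1 : h⁻¹ * g ∈ ball S (n + n) := ball_mul S (ball_inv S hS.1 hh) hg
      refine ball_mono std ?_ (ball_scale std S R hball (n + n) e1)
      nlinarith
    have hne' : h⁻¹ * g ≠ 1 := by
      intro h4
      apply hne
      rw [inv_mul_eq_one] at h4
      exact h4.symm
    have h5 := h3 (h⁻¹ * g) (mem_std_ball hmem) hne'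
    refine lt_of_lt_of_le ?_ h5
    have hnpos : (0 : ℝ) < n := by exact_mod_cast hn
    have hRpos : (1 : ℝ) ≤ R := by exact_mod_cast hR
    have hlt : (n : ℝ) < ((4 * R * n : ℕ) : ℝ) := by
      push_cast
      nlinarith
    have := one_div_lt_one_div_of_lt hnpos hlt
    linarith

theorem eventually_large (A r : ℕ) (hr : 0 < r) :
    ∃ N : ℕ, ∀ n : ℕ, N ≤ n → A * n ^ 4 < 2 ^ (n / r) := by
  have h := tendsto_pow_const_mul_const_pow_of_abs_lt_one 4
    (r := (1 / 2 : ℝ)) (by rw [abs_of_pos] <;> norm_num)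
  have h2 : (0 : ℝ) < 1 / (A * (2 * r) ^ 4 + 1) := by positivity
  obtain ⟨M, hM⟩ := Filter.eventually_atTop.mp (h.eventually (gt_mem_nhds h2))
  refine ⟨r * (M + 1), fun n hn => ?_⟩
  set m := n / r with hm
  have hm1 : M + 1 ≤ m := by
    rw [hm, Nat.le_div_iff_mul_le hr, Nat.mul_comm]
    exact hn
  have hn2 : n ≤ 2 * r * m := by
    have := Nat.lt_mul_div_succ n hr
    rw [← hm] at this
    nlinarith
  have h4 := hM m (by omega)
  have hpow : (0 : ℝ) < 2 ^ m := by positivity
  have hhalf : ((1 / 2 : ℝ)) ^ m = 1 / 2 ^ m := by rw [div_pow, one_pow]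
  rw [hhalf, mul_one_div, div_lt_div_iff₀ hpow (by positivity)] at h4
  have h5 : ((A * n ^ 4 : ℕ) : ℝ) ≤ (m : ℝ) ^ 4 * (A * (2 * r) ^ 4) := by
    have : n ^ 4 ≤ (2 * r * m) ^ 4 := Nat.pow_le_pow_left hn2 4
    have h6 : A * n ^ 4 ≤ A * (2 * r * m) ^ 4 := Nat.mul_le_mul_left A this
    have h7 : ((A * n ^ 4 : ℕ) : ℝ) ≤ ((A * (2 * r * m) ^ 4 : ℕ) : ℝ) := by exact_mod_cast h6
    refine h7.trans (le_of_eq ?_)
    push_cast
    ring
  have h8 : ((A * n ^ 4 : ℕ) : ℝ) < ((2 ^ m : ℕ) : ℝ) := by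
    have : (0 : ℝ) < (m : ℝ) ^ 4 := by
      have : (0 : ℝ) < m := by exact_mod_cast (by omega : 0 < m)
      positivity
    push_cast at h5 ⊢
    nlinarith
  exact_mod_cast h8

/-- For the lamplighter group and every finite symmetric generating set the sofic profile is at
most `c n ^ 4` while the growth is exponential, so the growth function is not bounded by the sofic
profile. -/
theorem result :
    (∃ S : Finset Lamp, SymGen S) ∧
    ∀ S : Finset Lamp, SymGen S →
      (∃ c : ℕ, ∀ n : ℕ, 1 ≤ n → soficProfile S n ≤ ((c * n ^ 4 : ℕ) : ℕ∞)) ∧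
      (∃ r : ℕ, 0 < r ∧ ∀ n : ℕ, 2 ^ (n / r) ≤ growth S n) ∧
      (∀ C : ℕ, 0 < C → ∃ N : ℕ, ∀ n : ℕ, N ≤ n →
        (C : ℕ∞) * soficProfile S (C * n) < ((growth S n : ℕ) : ℕ∞)) := by
  refine ⟨⟨std, std_symGen⟩, fun S hS => ?_⟩
  obtain ⟨c, hc⟩ := profile_bound S hS
  obtain ⟨r, hr, hgr⟩ := growth_bound S hS
  refine ⟨⟨c, hc⟩, ⟨r, hr, hgr⟩, fun C hC => ?_⟩
  obtain ⟨N, hN⟩ := eventually_large (C * (c * C ^ 4)) r hr
  refine ⟨N + 1, fun n hn => ?_⟩
  have h1 := hN n (by omega)
  have hCn : 1 ≤ C * n := Nat.mul_pos hC (by omega)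
  have h2 := hc (C * n) hCn
  calc (C : ℕ∞) * soficProfile S (C * n) ≤ (C : ℕ∞) * ((c * (C * n) ^ 4 : ℕ) : ℕ∞) :=
        mul_le_mul_right h2 _
    _ = ((C * (c * C ^ 4) * n ^ 4 : ℕ) : ℕ∞) := by push_cast; ring
    _ < ((growth S n : ℕ) : ℕ∞) := by exact_mod_cast h1.trans_le (hgr n)

end Pool.Agent.Results.MP_9f8f27_al.LamplighterProfile
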